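import Pool.Agent.SGP.Stmts

/-!
# SGP, row MAI: the main induction
-/

set_option autoImplicit false

noncomputable section

namespace Pool.Agent.SGP.H3

open Pool.Agent.SGE Pool.Agent.SGP

theorem o_self1 (p q : ℝ × ℝ) : o p q p = 0 := by unfold o; ring

theorem o_self2 (p q : ℝ × ℝ) : o p q q = 0 := by unfold o; ring

theorem not_Xs {p q r s : ℝ × ℝ} (h : r = p ∨ r = q ∨ s = p ∨ s = q) : ¬ Xs p q r s := by
  rintro ⟨h1, -⟩
  rcases h with rfl | rfl | rfl | rfl
  · rw [o_self1, zero_mul] at h1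
    exact lt_irrefl _ h1
  · rw [o_self2, zero_mul] at h1
    exact lt_irrefl _ h1
  · rw [o_self1, mul_zero] at h1
    exact lt_irrefl _ h1
  · rw [o_self2, mul_zero] at h1
    exact lt_irrefl _ h1

section

variable {V : Type} [Fintype V] {a b c : V} {E : V → V → Prop} {F : V → V → V → Prop}

theorem base (hN : NT a b [a, c, b] E F) (hI : Inn a b c E = ∅) (w : ℕ → Fin 3) :
    ∃ f π, Good a b c E F 0 w f π := by
  classical
  have hnd := hN.nd
  simp only [List.nodup_cons, List.mem_cons, List.not_mem_nil, or_false, not_or,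
    not_false_eq_true, List.nodup_nil, and_true] at hnd
  obtain ⟨⟨hac, hab⟩, hcb⟩ := hnd
  have hrel : ∀ x, Rel E x → x = a ∨ x = b ∨ x = c := by
    intro x hx
    by_contra hcon
    push Not at hcon
    have : x ∈ Inn a b c E := ⟨hcon.1, hcon.2.1, hcon.2.2, hx⟩
    rw [hI] at this
    exact this
  have hE1 : ∀ x y, E x y → Rel E x := fun x y h => ⟨y, h⟩
  have hE2 : ∀ x y, E x y → Rel E y := fun x y h => ⟨x, hN.sym _ _ h⟩
  have hEn : ∀ x y, E x y → x ≠ y := by
    rintro x y h rfl
    exact hN.irr _ h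
  set f : V → ℝ × ℝ := fun x => if x = a then (0, 0) else if x = b then (1, 0) else (0, 1) with hf
  have fa : f a = (0, 0) := by simp [hf]
  have fb : f b = (1, 0) := by simp [hf, Ne.symm hab]
  have fc : f c = (0, 1) := by simp [hf, Ne.symm hac, hcb]
  have hbd := hN.bd
  simp only [List.cons_append, List.nil_append, Tri, and_true] at hbd
  obtain ⟨⟨-, -, -, -, -, -, n1⟩, ⟨-, -, -, -, -, -, n2⟩, ⟨-, -, -, -, -, -, n3⟩⟩ := hbd
  have hpig : ∀ x y z t, E x y → E z t → z = x ∨ z = y ∨ t = x ∨ t = y := by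
    intro x y z t h1 h2
    by_contra hcon
    push Not at hcon
    obtain ⟨m1, m2, m3, m4⟩ := hcon
    have d1 := hEn _ _ h1
    have d2 := hEn _ _ h2
    have hx := hrel x (hE1 _ _ h1)
    have hy := hrel y (hE2 _ _ h1)
    have hz := hrel z (hE1 _ _ h2)
    have ht := hrel t (hE2 _ _ h2)
    clear h1 h2
    rcases hx with hx | hx | hx <;> rcases hy with hy | hy | hy <;>
      rcases hz with hz | hz | hz <;> rcases ht with ht | ht | ht <;>
      simp_all
  refine ⟨f, fun _ => a, ?_, ?_, ?_, ?_, ?_, ?_, ?_, ?_, ?_⟩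
  · intro x y z hx hy hz h1 h2 h3
    rcases hrel x hx with rfl | rfl | rfl <;> rcases hrel y hy with rfl | rfl | rfl <;>
      rcases hrel z hz with rfl | rfl | rfl <;>
      first
        | exact absurd rfl h1
        | exact absurd rfl h2
        | exact absurd rfl h3
        | (rw [fa, fb, fc]; unfold o; norm_num)
  · rw [fa, fb, fc]
    unfold o
    norm_num
  · intro x hx
    rw [hI] at hx
    exact absurd hx (Set.notMem_empty _)
  · intro x y z h
    have h1 := hN.fe _ _ _ h
    have h2 := hN.fe _ _ _ (hN.rot _ _ _ h)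
    have h3 := hN.fe _ _ _ (hN.rot _ _ _ (hN.rot _ _ _ h))
    have d1 := hEn _ _ h1
    have d2 := hEn _ _ h2
    have d3 := hEn _ _ h3
    have r2 := hN.rot _ _ _ h
    have r3 := hN.rot _ _ _ r2
    rcases hrel x (hE1 _ _ h1) with rfl | rfl | rfl <;>
      rcases hrel y (hE2 _ _ h1) with rfl | rfl | rfl <;>
      rcases hrel z (hE2 _ _ h2) with rfl | rfl | rfl <;>
      first
        | exact absurd rfl d1
        | exact absurd rfl d2
        | exact absurd rfl d3
        | exact absurd h (n1 _)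
        | exact absurd h (n2 _)
        | exact absurd h (n3 _)
        | (rw [fa, fb, fc]; unfold o; norm_num)
  · intro x y z t h1 h2
    apply not_Xs
    rcases hpig x y z t h1 h2 with h | h | h | h
    · exact Or.inl (by rw [h])
    · exact Or.inr (Or.inl (by rw [h]))
    · exact Or.inr (Or.inr (Or.inl (by rw [h])))
    · exact Or.inr (Or.inr (Or.inr (by rw [h])))
  · intro i hi
    exact absurd hi (Nat.not_lt_zero _)
  · intro i j hi
    exact absurd hi (Nat.not_lt_zero _)
  · intro x hx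
    rw [hI] at hx
    exact absurd hx (Set.notMem_empty _)
  · intro s t s' t' h1 h2
    rcases s with X | i
    swap
    · exfalso
      rcases t with Y | j
      · exact absurd h1.1 (Nat.not_lt_zero _)
      · exact absurd h1.1 (Nat.not_lt_zero _)
    rcases t with Y | j
    swap
    · exact absurd h1.1 (Nat.not_lt_zero _)
    rcases s' with X' | i
    swap
    · exfalso
      rcases t' with Y' | j
      · exact absurd h2.1 (Nat.not_lt_zero _)
      · exact absurd h2.1 (Nat.not_lt_zero _)
    rcases t' with Y' | j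
    swap
    · exact absurd h2.1 (Nat.not_lt_zero _)
    have d1 : X ≠ Y := h1
    have d2 : X' ≠ Y' := h2
    apply not_Xs
    have : X' = X ∨ X' = Y ∨ Y' = X ∨ Y' = Y := by omega
    rcases this with h | h | h | h
    · exact Or.inl (by rw [h])
    · exact Or.inr (Or.inl (by rw [h]))
    · exact Or.inr (Or.inr (Or.inl (by rw [h])))
    · exact Or.inr (Or.inr (Or.inr (by rw [h])))

/-- the new order -/
def pi' (v : V) (π : ℕ → V) : ℕ → V
  | 0 => v
  | i + 1 => π i

theorem stepC (hCTR : CtrStmt) (hINS : InsStmt) (hSTA : StaStmt) (hSTB : StbStmt) {k : ℕ}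
    (ih : ∀ (a b c : V) (E : V → V → Prop) (F : V → V → V → Prop) (w : ℕ → Fin 3),
      NT a b [a, c, b] E F → (Inn a b c E).ncard = k → ∃ f π, Good a b c E F k w f π)
    (w : ℕ → Fin 3) (hN : NT a b [a, c, b] E F) (hk : (Inn a b c E).ncard = k + 1)
    (hw : w 0 = 2) : ∃ f π, Good a b c E F (k + 1) w f π := by
  classical
  have hne : (Inn a b c E).Nonempty := by
    apply Set.nonempty_of_ncard_ne_zero
    omega
  obtain ⟨E', F', P, p, v, q, mid, Q, hC⟩ := hCTR hN hne
  have hv' : ¬ Rel E' v := by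
    rintro ⟨y, hy⟩
    exact hC.iso _ hy
  have hInn : Inn a b c E = insert v (Inn a b c E') := by
    ext x
    simp only [Inn, Set.mem_setOf_eq, Set.mem_insert_iff]
    rw [hC.rel x]
    constructor
    · rintro ⟨h1, h2, h3, h4 | h4⟩
      · exact Or.inl h4
      · exact Or.inr ⟨h1, h2, h3, h4⟩
    · rintro (h | ⟨h1, h2, h3, h4⟩)
      · subst h
        exact ⟨hC.va, hC.vb, hC.vc, Or.inl rfl⟩
      · exact ⟨h1, h2, h3, Or.inr h4⟩
  have hvn : v ∉ Inn a b c E' := fun h => hv' h.2.2.2
  have hk' : (Inn a b c E').ncard = k := by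
    rw [hInn, Set.ncard_insert_of_notMem hvn (Set.toFinite _)] at hk
    omega
  obtain ⟨f, π, hG⟩ := ih a b c E' F' (fun i => w (i + 1)) hC.nt hk'
  obtain ⟨hcpq, hsta⟩ := hSTA hN hC hG
  have hnd := hC.nt.nd
  simp only [List.nodup_cons, List.mem_cons, List.not_mem_nil, or_false, not_or,
    not_false_eq_true, List.nodup_nil, and_true] at hnd
  obtain ⟨⟨hac, hab⟩, hcb⟩ := hnd
  have hEa : E' c a := (hC.nc' a).mpr (List.mem_of_mem_head? hC.hd)
  have hEb : E' c b := (hC.nc' b).mpr (List.mem_of_getLast? hC.ls)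
  have hRc : Rel E' c := ⟨a, hEa⟩
  have hRa : Rel E' a := ⟨c, hC.nt.sym _ _ hEa⟩
  have hRb : Rel E' b := ⟨c, hC.nt.sym _ _ hEb⟩
  obtain ⟨X, hX⟩ := hINS c p q (Rel E') f hcpq (by
    intro y hy hyc hfy
    by_cases hya : y = a
    · have hyb : y ≠ b := by
        rw [hya]
        exact hab
      apply hG.gp y c b hy hRc hRb hyc hyb hcb
      rw [hfy]
      unfold o
      ring
    · apply hG.gp y c a hy hRc hRa hyc hya (Ne.symm hac)
      rw [hfy]
      unfold o
      ring) (by
    intro y z hy hz hyc hzc hyz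
    exact hG.gp c y z hRc hy hz (Ne.symm hyc) (Ne.symm hzc) hyz)
  obtain ⟨g1, g2, g3, g4, g5⟩ := hsta X hX
  obtain ⟨p1, p2, p3, p4⟩ := hSTB hN hC hw hG hX g3 (pi' v π) rfl (fun _ => rfl)
  exact ⟨Function.update f v X, pi' v π, g1, g2, g3, g4, g5, p1, p2, p3, p4⟩

end

theorem mai (hROT : RotStmt) (hCTR : CtrStmt) (hINS : InsStmt) (hSTA : StaStmt) (hSTB : StbStmt)
    (hGRO : GroStmt) : MaiStmt := by
  intro k
  induction k with
  | zero =>
    intro V _ a b c E F w hN hk
    apply base hN _ w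
    rwa [Set.ncard_eq_zero (Set.toFinite _)] at hk
  | succ k ih =>
    intro V _ a b c E F w hN hk
    have ih' : ∀ (a b c : V) (E : V → V → Prop) (F : V → V → V → Prop) (w : ℕ → Fin 3),
        NT a b [a, c, b] E F → (Inn a b c E).ncard = k → ∃ f π, Good a b c E F k w f π :=
      fun a b c E F w h1 h2 => ih w h1 h2
    have hN1 := hROT hN
    have hN2 := hROT hN1
    have hI1 : Inn b c a E = Inn a b c E := by
      ext x
      simp only [Inn, Set.mem_setOf_eq]
      tauto
    have hI2 : Inn c a b E = Inn a b c E := by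
      ext x
      simp only [Inn, Set.mem_setOf_eq]
      tauto
    have hcases : w 0 = 2 ∨ w 0 = 0 ∨ w 0 = 1 := by omega
    rcases hcases with h | h | h
    · exact stepC hCTR hINS hSTA hSTB ih' w hN hk h
    · obtain ⟨f, π, hG⟩ := stepC hCTR hINS hSTA hSTB ih' (fun i => w i + 2) hN1
        (by rw [hI1]; exact hk) (by simp only [h]; decide)
      exact ⟨f, π, hGRO hG⟩
    · obtain ⟨f, π, hG⟩ := stepC hCTR hINS hSTA hSTB ih' (fun i => w i + 2 + 2) hN2
        (by rw [hI2]; exact hk) (by simp only [h]; decide)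
      have hG1 : Good b c a E F (k + 1) (fun i => w i + 2) f π :=
        hGRO (w := fun i => w i + 2) hG
      exact ⟨f, π, hGRO hG1⟩

end Pool.Agent.SGP.H3
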